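import Pool.Agent.H61.KV.TS

/-! OPN. Families of points of `Mh m` over a slice are open in the projective plane. -/

set_option autoImplicit false

open Topology Set Filter
open Pool.Agent.H59 Pool.Agent.H64.LB Pool.Agent.H61.KU Pool.Agent.H61.KV

namespace Pool.Agent.H87.KV

theorem pf_OPN (h1 : T_LFM) (h2 : T_DOX) : T_OPN := by
  intro m hm η O g hO hg hMh
  rw [isOpen_iff_forall_mem_open]
  rintro x0 ⟨c0, b0, hc0, hb0, hη0, hx0⟩
  -- the kernel
  have hη : η ≠ 0 := by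
    rintro rfl
    simp at hη0
  have hfr : Module.finrank ℝ (LinearMap.ker η) = 4 := by
    have h3 := LinearMap.finrank_range_add_finrank_ker η
    have h4 : LinearMap.range η = ⊤ := LinearMap.range_eq_top.2 (LinearMap.surjective hη)
    rw [h4, finrank_top, Module.finrank_self, finrank_euclideanSpace, Fintype.card_fin] at h3
    omega
  have hfr' : Module.finrank ℝ (Fin 4 → ℝ) = Module.finrank ℝ (LinearMap.ker η) := by
    rw [hfr, Module.finrank_fin_fun]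
  let j : (Fin 4 → ℝ) →ₗ[ℝ] E5 :=
    (LinearMap.ker η).subtype ∘ₗ (LinearEquiv.ofFinrankEq _ _ hfr').toLinearMap
  have hjc : Continuous j := j.continuous_of_finiteDimensional
  have hji : Function.Injective j :=
    (LinearMap.ker η).injective_subtype.comp (LinearEquiv.ofFinrankEq _ _ hfr').injective
  have hjη : ∀ u, η (j u) = 0 := fun u => (LinearEquiv.ofFinrankEq _ _ hfr' u).2
  have hη1 : ∀ u, η (b0 + j u) = 1 := fun u => by rw [map_add, hjη, hη0, add_zero]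
  set U : Set (Fin 4 → ℝ) := {u | b0 + j u ∈ O} with hU
  have hcj : Continuous fun u => b0 + j u := continuous_const.add hjc
  have hUo : IsOpen U := hO.preimage hcj
  let φ : U → E4 × E5 := fun u => (g (b0 + j u.1), b0 + j u.1)
  have hφc : Continuous φ := by
    refine Continuous.prodMk ?_ (hcj.comp continuous_subtype_val)
    exact hg.comp_continuous (hcj.comp continuous_subtype_val) fun u => u.2
  have hφ : ∀ u, φ u ∈ Mh m ∧ φ u ≠ 0 := by
    intro u
    refine ⟨hMh _ u.2 (hη1 _), fun h0 => ?_⟩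
    have h3 : b0 + j u.1 = 0 := congrArg Prod.snd h0
    have h4 := hη1 u.1
    rw [h3, map_zero] at h4
    exact zero_ne_one h4
  obtain ⟨ψ, hψ⟩ := h1 (E4 × E5) m hm U φ hφc hφ
  choose c hc hcψ using hψ
  classical
  let G : (Fin 4 → ℝ) → PN 2 := fun u => if h : u ∈ U then ψ ⟨u, h⟩ else x0
  have hGU : ∀ u : U, G u.1 = ψ u := fun u => by
    simp only [G]
    rw [dif_pos u.2]
  have hGc : ContinuousOn G U := by
    rw [continuousOn_iff_continuous_domRestrict]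
    have : U.domRestrict G = ψ := by
      funext u
      exact hGU u
    rw [this]
    exact ψ.continuous
  have hGi : InjOn G U := by
    intro u hu u' hu' huu
    have h3 : ψ ⟨u, hu⟩ = ψ ⟨u', hu'⟩ := by
      rw [← hGU ⟨u, hu⟩, ← hGU ⟨u', hu'⟩]
      exact huu
    have h4 : b0 + j u = c ⟨u, hu⟩ • (m (ψ ⟨u, hu⟩)).2 := congrArg Prod.snd (hcψ ⟨u, hu⟩)
    have h5 : b0 + j u' = c ⟨u', hu'⟩ • (m (ψ ⟨u', hu'⟩)).2 := congrArg Prod.snd (hcψ ⟨u', hu'⟩)
    rw [← h3] at h5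
    have h6 : 1 = c ⟨u, hu⟩ * η (m (ψ ⟨u, hu⟩)).2 := by
      rw [← hη1 u, h4, map_smul, smul_eq_mul]
    have h7 : 1 = c ⟨u', hu'⟩ * η (m (ψ ⟨u, hu⟩)).2 := by
      rw [← hη1 u', h5, map_smul, smul_eq_mul]
    have h8 : η (m (ψ ⟨u, hu⟩)).2 ≠ 0 := by
      intro h0
      rw [h0, mul_zero] at h6
      exact one_ne_zero h6
    have h9 : c ⟨u, hu⟩ = c ⟨u', hu'⟩ := mul_right_cancel₀ h8 (h6.symm.trans h7)
    rw [← h9] at h5
    have h10 : b0 + j u = b0 + j u' := h4.trans h5.symm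
    exact hji (add_left_cancel h10)
  refine ⟨G '' U, ?_, h2 U G hUo hGc hGi, ?_⟩
  · rintro _ ⟨u, hu, rfl⟩
    rw [hGU ⟨u, hu⟩]
    refine ⟨(c ⟨u, hu⟩)⁻¹, b0 + j u, inv_pos.2 (hc _), hu, hη1 u, ?_⟩
    have h3 : φ ⟨u, hu⟩ = c ⟨u, hu⟩ • m (ψ ⟨u, hu⟩) := hcψ ⟨u, hu⟩
    have h4 : ((g (b0 + j u), b0 + j u) : E4 × E5) = φ ⟨u, hu⟩ := rfl
    rw [h4, h3, smul_smul, inv_mul_cancel₀ (hc _).ne', one_smul]
  · have h0 : (0 : Fin 4 → ℝ) ∈ U := by
      simp only [hU, Set.mem_ofPred_eq, map_zero, add_zero]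
      exact hb0
    refine ⟨0, h0, ?_⟩
    rw [hGU ⟨0, h0⟩]
    refine hm.inj _ _ (c0 * c ⟨0, h0⟩) (mul_pos hc0 (hc _)) ?_
    have h3 : φ ⟨0, h0⟩ = (g b0, b0) := by
      simp only [φ, map_zero, add_zero]
    rw [hx0, mul_smul, ← hcψ ⟨0, h0⟩, h3]

end Pool.Agent.H87.KV
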