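import Pool.Agent.H61.KV.TS

/-! ST. Every coset of the span of a minimal face has a foot. -/

set_option autoImplicit false

open Topology Set Filter
open Pool.Agent.H59 Pool.Agent.H64.LB Pool.Agent.H61.KU Pool.Agent.H61.KV

namespace Pool.Agent.H87.KV

theorem pf_ST (h1 : T_STD) (h2 : T_TRA) (h3 : T_STQ) (h4 : T_STB) (h5 : T_P1N) (h6 : T_CNC)
    (h7 : T_FCB) : T_ST := by
  intro V _ _ _ m hm p hp q hq
  obtain ⟨L, hL⟩ := h1 V (Sp (Cn m) p) hm.rank (h5 V m hm p hp).1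
  obtain ⟨t1, -, t3, -, -, t6, t7⟩ := h2 V (E4 × E5) m L
  have hstd : Std (fun x => L (m x)) (L p) := by
    refine ⟨t1 hm, (t7 p).2 hp, fun v => ?_⟩
    have h8 := (t6 p (L.symm v)).trans (hL (L.symm v))
    rwa [L.apply_symm_apply] at h8
  obtain ⟨c1, c2, -⟩ := h6 (E4 × E5) (fun x => L (m x)) (t1 hm)
  obtain ⟨d1, -⟩ := h6 V m hm
  obtain ⟨-, -, -, -, f5, -⟩ := h7 V (Cn m) p d1 hp.1
  have hqC : L q ∈ Cn (fun x => L (m x)) := (t3 q).2 hq
  obtain ⟨g', hg'⟩ := h4 _ c1 c2 (h3 _ _ hstd) (L q).2 ⟨(L q).1, hqC⟩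
  have key : ∀ r, (L r).2 = (L q).2 → L (r - L.symm (g', (L q).2)) = ((L r).1 - g', (0 : E5)) := by
    intro r hr
    rw [map_sub, L.apply_symm_apply]
    refine Prod.ext rfl ?_
    change (L r).2 - (L q).2 = 0
    rw [hr, sub_self]
  have key2 : ∀ r, (L (r - L.symm (g', (L q).2))).2 = (L r).2 - (L q).2 := by
    intro r
    rw [map_sub, L.apply_symm_apply]
    rfl
  refine ⟨L.symm (g', (L q).2), fun r => ⟨?_, ?_⟩⟩
  · rintro ⟨hr, hrq⟩
    have h8 : (L r).2 = (L q).2 := by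
      have h9 := (hL _).1 hrq
      rw [map_sub] at h9
      exact sub_eq_zero.1 h9
    have h9 : ((L r).1, (L q).2) ∈ Cn (fun x => L (m x)) := by
      have h10 := (t3 r).2 hr
      rw [← h8]
      exact h10
    have h10 := (hg' _).1 h9
    rw [← key r h8] at h10
    refine f5 _ ((t3 _).1 h10) ((hL _).2 ?_)
    rw [key r h8]
  · intro hr
    have h8 : r - L.symm (g', (L q).2) ∈ Sp (Cn m) p := Submodule.subset_span hr
    have h9 : (L r).2 = (L q).2 := by
      have h10 := (hL _).1 h8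
      rw [key2] at h10
      exact sub_eq_zero.1 h10
    have h10 : L (r - L.symm (g', (L q).2)) ∈ Cn (fun x => L (m x)) := (t3 _).2 hr.1
    rw [key r h9] at h10
    have h11 := (hg' _).2 h10
    refine ⟨(t3 r).1 ?_, (hL _).2 ?_⟩
    · rw [← h9] at h11
      exact h11
    · rw [map_sub]
      exact sub_eq_zero.2 h9

end Pool.Agent.H87.KV
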