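import Pool.Agent.H61.KV.TS

/-! STB. The slices over the boundary points of the base. -/

set_option autoImplicit false

open Topology Set Filter
open Pool.Agent.H59 Pool.Agent.H64.LB Pool.Agent.H61.KU Pool.Agent.H61.KV

namespace Pool.Agent.H87.KV

theorem pf_STB (h1 : T_POS) (h2 : T_BSI) : T_STB := by
  intro C hC hsp hG b hb
  obtain ⟨⟨u1, hu1⟩, -, hsm, hadd, -⟩ := h2 C hC hsp
  obtain ⟨-, ⟨z, hz, hz0⟩, -⟩ := h1 C hC
  set ε : ℕ → ℝ := fun n => 1 / ((n : ℝ) + 1) with hε
  have hεp : ∀ n, 0 < ε n := fun n => by simp only [hε]; positivity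
  have hεa : ∀ n n', n ≤ n' → ε n' ≤ ε n := by
    intro n n' hn
    simp only [hε]
    apply one_div_le_one_div_of_le (by positivity)
    have : (n : ℝ) ≤ n' := by exact_mod_cast hn
    linarith
  have hεt : Tendsto ε atTop (𝓝 0) := tendsto_one_div_add_atTop_nhds_zero_nat
  have hbn : ∀ n, b + ε n • u1 ∈ interior (Bs C) := fun n =>
    hadd b hb _ (hsm _ (hεp n) _ hu1)
  choose G hGn using fun n => hG _ (hbn n)
  obtain ⟨g1, hg1⟩ := hG u1 hu1
  have hg1C : (g1, u1) ∈ C := by
    have := (hg1 g1).2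
    rw [sub_self] at this
    exact this hC.zero
  have hGC : ∀ n, (G n, b + ε n • u1) ∈ C := by
    intro n
    have := (hGn n (G n)).2
    rw [sub_self] at this
    exact this hC.zero
  set h : ℕ → E4 := fun n => G n - ε n • g1 with hh
  have hi : ∀ n n', n ≤ n' → (h n' - h n, (0 : E5)) ∈ C := by
    intro n n' hn
    have h3 : (G n', b + ε n' • u1) + (ε n - ε n') • (g1, u1) ∈ C :=
      hC.add _ (hGC n') _ (hC.smul _ (sub_nonneg.2 (hεa n n' hn)) _ hg1C)
    have h4 : (G n', b + ε n' • u1) + (ε n - ε n') • (g1, u1)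
        = (G n' + (ε n - ε n') • g1, b + ε n • u1) := by
      rw [Prod.smul_mk, Prod.mk_add_mk]
      congr 1
      rw [sub_smul]
      abel
    rw [h4] at h3
    have h5 := (hGn n _).1 h3
    have h6 : G n' + (ε n - ε n') • g1 - G n = h n' - h n := by
      simp only [hh]
      rw [sub_smul]
      abel
    rwa [h6] at h5
  have hii : ∀ a, (a, b) ∈ C → ∀ n, (a - h n, (0 : E5)) ∈ C := by
    intro a ha n
    have h3 : (a, b) + (ε n) • (g1, u1) ∈ C := hC.add _ ha _ (hC.smul _ (hεp n).le _ hg1C)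
    rw [Prod.smul_mk, Prod.mk_add_mk] at h3
    have h5 := (hGn n _).1 h3
    have h6 : a + ε n • g1 - G n = a - h n := by
      simp only [hh]
      abel
    rwa [h6] at h5
  have hpz : ∀ i, ∀ a, (a, (0 : E5)) ∈ C → 0 ≤ inner ℝ (z i) a := by
    intro i a ha
    by_cases h0 : a = 0
    · rw [h0, inner_zero_right]
    · exact (hz i a ha h0).le
  obtain ⟨a0, ha0⟩ := hb
  have hconv : ∀ i, ∃ l, Tendsto (fun n => inner ℝ (z i) (h n)) atTop (𝓝 l) := by
    intro i
    refine ⟨_, tendsto_atTop_ciSup ?_ ⟨inner ℝ (z i) a0, ?_⟩⟩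
    · intro n n' hn
      have := hpz i _ (hi n n' hn)
      rw [inner_sub_right] at this
      linarith
    · rintro _ ⟨n, rfl⟩
      have := hpz i _ (hii a0 ha0 n)
      rw [inner_sub_right] at this
      simp only
      linarith
  choose l hl using hconv
  -- the linear map
  let L : E4 →ₗ[ℝ] (Fin 5 → ℝ) := LinearMap.pi fun i => (innerₗ E4 (z i))
  have hLi : ∀ a i, L a i = inner ℝ (z i) a := fun a i => rfl
  have hker : LinearMap.ker L = ⊥ := by
    rw [LinearMap.ker_eq_bot']
    intro a ha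
    apply hz0
    intro i
    rw [← hLi, ha]
    rfl
  obtain ⟨M, hM⟩ := L.exists_leftInverse_of_injective hker
  have hMc : Continuous M := M.continuous_of_finiteDimensional
  have hlim : Tendsto h atTop (𝓝 (M l)) := by
    have h3 : Tendsto (fun n => L (h n)) atTop (𝓝 l) := by
      rw [tendsto_pi_nhds]
      intro i
      exact hl i
    have h4 := (hMc.tendsto l).comp h3
    have h5 : (M ∘ fun n => L (h n)) = h := by
      funext n
      have := congrArg (fun f => f (h n)) hM
      simpa using this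
    rwa [h5] at h4
  refine ⟨M l, fun a => ⟨fun ha => ?_, fun ha => ?_⟩⟩
  · have h3 : Tendsto (fun n => (a - h n, (0 : E5))) atTop (𝓝 (a - M l, (0 : E5))) :=
      (tendsto_const_nhds.sub hlim).prodMk_nhds tendsto_const_nhds
    exact hC.closed.mem_of_tendsto h3 (Eventually.of_forall fun n => hii a ha n)
  · have hgt : Tendsto G atTop (𝓝 (M l)) := by
      have h3 : Tendsto (fun n => h n + ε n • g1) atTop (𝓝 (M l + (0 : ℝ) • g1)) :=
        hlim.add (hεt.smul_const g1)
      rw [zero_smul, add_zero] at h3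
      refine h3.congr fun n => ?_
      simp only [hh]
      abel
    have hbt : Tendsto (fun n => b + ε n • u1) atTop (𝓝 b) := by
      have h3 : Tendsto (fun n => b + ε n • u1) atTop (𝓝 (b + (0 : ℝ) • u1)) :=
        tendsto_const_nhds.add (hεt.smul_const u1)
      rwa [zero_smul, add_zero] at h3
    have h4 : (M l, b) ∈ C :=
      hC.closed.mem_of_tendsto (hgt.prodMk_nhds hbt) (Eventually.of_forall hGC)
    have h5 := hC.add _ ha _ h4
    rw [Prod.mk_add_mk, sub_add_cancel, zero_add] at h5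
    exact h5

end Pool.Agent.H87.KV
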